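import Mathlib
import Pool.Agent.MP_60863d_al.H86.Cover

/-!
Vanishing of the algebraic entropy of an action of an amenable group `G` on an abelian group `A`
as soon as the restriction to some subgroup of infinite index has finite algebraic entropy.
-/

open Filter Topology
open scoped Pointwise symmDiff ENNReal Classical

namespace Pool.Agent.Results.MP_60863d_al.Vanishing

/-- `F` is a right Folner net of the group `K` along the filter `l`
(a net over a directed set is the case `l = atTop`). -/
def IsRightFolner (K : Type*) [Group K] {I : Type*} (l : Filter I) (F : I → Finset K) : Prop :=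
  (∀ i, (F i).Nonempty) ∧
    ∀ g : K, Tendsto (fun i => ((((F i).image (fun x => x * g)) ∆ (F i)).card : ℝ) / (F i).card)
      l (𝓝 0)

/-- The trajectory `T_F(α, X) = ∑_{g ∈ F} α_g(X)` (a sumset in `A`). -/
noncomputable def traj (K : Type*) [Group K] {A : Type*} [AddCommGroup A] [DistribMulAction K A]
    (F : Finset K) (X : Finset A) : Finset A :=
  ∑ g ∈ F, X.image (fun a => g • a)

/-- The ratio `log |T_F(α, X)| / |F|`, as an element of `[0, ∞]`. -/
noncomputable def ratio (K : Type*) [Group K] {A : Type*} [AddCommGroup A] [DistribMulAction K A]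
    (F : Finset K) (X : Finset A) : ℝ≥0∞ :=
  ENNReal.ofReal (Real.log (traj K F X).card / F.card)

/-- Algebraic entropy computed with the lower limit along the net. -/
noncomputable def entLower (K : Type*) [Group K] (A : Type*) [AddCommGroup A]
    [DistribMulAction K A] {I : Type*} (l : Filter I) (F : I → Finset K) : ℝ≥0∞ :=
  ⨆ (X : Finset A) (_ : X.Nonempty), liminf (fun i => ratio K (F i) X) l

/-- Algebraic entropy computed with the upper limit along the net. -/
noncomputable def entUpper (K : Type*) [Group K] (A : Type*) [AddCommGroup A]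
    [DistribMulAction K A] {I : Type*} (l : Filter I) (F : I → Finset K) : ℝ≥0∞ :=
  ⨆ (X : Finset A) (_ : X.Nonempty), limsup (fun i => ratio K (F i) X) l

section aux

variable {K : Type*} [Group K] {A : Type*} [AddCommGroup A] [DistribMulAction K A]

lemma traj_eq (F : Finset K) (X : Finset A) : traj K F X = ∑ g ∈ F, g • X := rfl

lemma traj_nonempty (F : Finset K) {X : Finset A} (hX : X.Nonempty) : (traj K F X).Nonempty := by
  rw [traj_eq]
  induction F using Finset.induction_on with
  | empty => simp
  | insert a s ha ih =>
    rw [Finset.sum_insert ha]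
    exact (hX.smul_finset).add ih

lemma traj_card_pos (F : Finset K) {X : Finset A} (hX : X.Nonempty) :
    (1 : ℝ) ≤ (traj K F X).card := by
  exact_mod_cast (traj_nonempty F hX).card_pos

lemma traj_union {F F' : Finset K} (h : Disjoint F F') (X : Finset A) :
    traj K (F ∪ F') X = traj K F X + traj K F' X := by
  simp only [traj_eq, Finset.sum_union h]

lemma traj_mono {F F' : Finset K} (h : F ⊆ F') {X : Finset A} (hX : X.Nonempty) :
    (traj K F X).card ≤ (traj K F' X).card := by
  have : F' = F ∪ (F' \ F) := (Finset.union_sdiff_of_subset h).symm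
  rw [this, traj_union Finset.disjoint_sdiff]
  exact Finset.card_le_card_add_right (traj_nonempty _ hX)

lemma traj_sub {U V W : Finset K} (h : U ⊆ V ∪ W) {X : Finset A} (hX : X.Nonempty) :
    (traj K U X).card ≤ (traj K V X).card * (traj K W X).card := by
  have h1 : V ∪ W = V ∪ (W \ V) := by simp
  calc (traj K U X).card ≤ (traj K (V ∪ (W \ V)) X).card := traj_mono (h1 ▸ h) hX
    _ ≤ (traj K V X).card * (traj K (W \ V) X).card := by
        rw [traj_union Finset.disjoint_sdiff]; exact Finset.card_add_le
    _ ≤ _ := Nat.mul_le_mul_left _ (traj_mono Finset.sdiff_subset hX)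

lemma traj_inv (x : K) (D : Finset K) (X : Finset A) :
    (traj K (D.image (x * ·)) X).card = (traj K D X).card := by
  rw [traj_eq, Finset.sum_image (fun a _ b _ hab => mul_left_cancel hab)]
  simp only [mul_smul]
  rw [← Finset.smul_sum, Finset.card_smul_finset, traj_eq]

lemma traj_card_le (U : Finset K) (X : Finset A) : (traj K U X).card ≤ X.card ^ U.card := by
  induction U using Finset.induction_on with
  | empty => simp [traj_eq]
  | insert a s ha ih =>
    rw [traj_eq, Finset.sum_insert ha, Finset.card_insert_of_notMem ha, pow_succ']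
    calc _ ≤ (a • X).card * (traj K s X).card := Finset.card_add_le
      _ ≤ _ := by rw [Finset.card_smul_finset]; exact Nat.mul_le_mul_left _ ih

lemma exists_reps (H : Subgroup K) (hH : H.index = 0) (k : ℕ) :
    ∃ E : Finset K, E.card = k ∧ ∀ a ∈ E, ∀ b ∈ E, ∀ h h' : H, h * a = h' * b → a = b := by
  have : Infinite (K ⧸ H) := Subgroup.index_eq_zero_iff_infinite.1 hH
  obtain ⟨S, hS⟩ := Infinite.exists_subset_card_eq (K ⧸ H) k
  refine ⟨S.image (fun q => (Quotient.out q)⁻¹), ?_, ?_⟩
  · rw [Finset.card_image_of_injective _ ?_, hS]
    intro p q hpq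
    exact Quotient.out_injective (inv_injective hpq)
  · intro a ha b hb h h' hh
    obtain ⟨p, _, rfl⟩ := Finset.mem_image.1 ha
    obtain ⟨q, _, rfl⟩ := Finset.mem_image.1 hb
    have : p = q := by
      rw [← QuotientGroup.out_eq' p, ← QuotientGroup.out_eq' q, QuotientGroup.eq]
      have : (Quotient.out p)⁻¹ * Quotient.out q = (h : K)⁻¹ * h' := by
        rw [eq_inv_mul_iff_mul_eq, ← mul_assoc, hh]; simp
      rw [this]
      exact H.mul_mem (H.inv_mem h.2) h'.2
    rw [this]

lemma traj_comp (H : Subgroup K) (E : Finset K)
    (hE : ∀ a ∈ E, ∀ b ∈ E, ∀ h h' : H, h * a = h' * b → a = b) (F : Finset H) (X : Finset A) :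
    ∃ D : Finset K, D.card = F.card * E.card ∧ traj K D X = traj H F (traj K E X) := by
  have hinj : Set.InjOn (fun p : H × K => (p.1 : K) * p.2) (F ×ˢ E : Finset (H × K)) := by
    rintro ⟨h, a⟩ hp ⟨h', b⟩ hq hpq
    simp only [Finset.coe_product, Set.mem_prod, Finset.mem_coe] at hp hq
    have hab : a = b := hE a hp.2 b hq.2 h h' hpq
    subst hab
    have : (h : K) = h' := mul_right_cancel hpq
    rw [Subtype.ext this]
  refine ⟨(F ×ˢ E).image (fun p : H × K => (p.1 : K) * p.2), ?_, ?_⟩
  · rw [Finset.card_image_of_injOn hinj, Finset.card_product]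
  · rw [traj_eq, Finset.sum_image hinj, Finset.sum_product, traj_eq, traj_eq]
    apply Finset.sum_congr rfl
    intro h _
    rw [Finset.smul_sum]
    apply Finset.sum_congr rfl
    intro a _
    rw [mul_smul]
    rfl

end aux

/-- If the restriction of the action to a subgroup `H` of infinite index has finite algebraic
entropy, then the action of `G` has zero algebraic entropy. -/
theorem result {G : Type*} [Group G] {A : Type*} [AddCommGroup A] [DistribMulAction G A]
    (H : Subgroup G) (hidx : H.index = 0)
    {I : Type*} (l : Filter I) [l.NeBot] (F : I → Finset G) (hF : IsRightFolner G l F)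
    {J : Type*} (m : Filter J) [m.NeBot] (E : J → Finset H) (hE : IsRightFolner H m E)
    (hfin : entLower H A m E < ⊤) :
    entUpper G A l F = 0 := by
  unfold entUpper
  simp only [ENNReal.iSup_eq_zero]
  intro X hX
  have hlog : ∀ U : Finset G, 0 ≤ Real.log (traj G U X).card :=
    fun U => Real.log_nonneg (traj_card_pos U hX)
  have key : Tendsto (fun i => Real.log (traj G (F i) X).card / (F i).card) l (𝓝 0) := by
    apply Pool.Agent.MP_60863d_al.H86.tendsto_zero_of_small
      (fun U => Real.log (traj G U X).card) (Real.log X.card)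
      (Real.log_nonneg (by exact_mod_cast hX.card_pos)) hlog ?_ ?_ ?_ ?_ l F hF.1 hF.2
    · intro U V W h
      have hV := traj_card_pos V hX
      have hW := traj_card_pos W hX
      have hU := traj_card_pos U hX
      rw [← Real.log_mul (by linarith) (by linarith)]
      apply Real.log_le_log (by linarith)
      exact_mod_cast traj_sub h hX
    · intro x D
      simp only [traj_inv]
    · intro U
      have hU := traj_card_pos U hX
      rw [mul_comm, ← Real.log_pow]
      apply Real.log_le_log (by linarith)
      exact_mod_cast traj_card_le U X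
    · intro η hη
      set c : ℝ := (entLower H A m E).toReal + 1 with hc
      have hcpos : 0 < c := by positivity
      obtain ⟨k, hk⟩ := exists_nat_gt (c / η)
      have hkpos : (0 : ℝ) < k := lt_trans (by positivity) hk
      obtain ⟨R, hRk, hR⟩ := exists_reps H hidx k
      have hY : (traj G R X).Nonempty := traj_nonempty R hX
      have h1 : liminf (fun j => ratio H (E j) (traj G R X)) m ≤ entLower H A m E :=
        le_iSup₂_of_le (f := fun (X : Finset A) (_ : X.Nonempty) =>
          liminf (fun j => ratio H (E j) X) m) (traj G R X) hY le_rfl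
      have h2 : entLower H A m E < ENNReal.ofReal c := by
        rw [hc, ENNReal.ofReal_add ENNReal.toReal_nonneg zero_le_one,
          ENNReal.ofReal_toReal hfin.ne, ENNReal.ofReal_one]
        exact ENNReal.lt_add_right hfin.ne one_ne_zero
      obtain ⟨j, hj⟩ := (frequently_lt_of_liminf_lt (by isBoundedDefault) (h1.trans_lt h2)).exists
      unfold ratio at hj
      rw [ENNReal.ofReal_lt_ofReal_iff hcpos] at hj
      obtain ⟨D, hD, hDX⟩ := traj_comp H R hR (E j) X
      have hEpos : (0 : ℝ) < (E j).card := by exact_mod_cast (hE.1 j).card_pos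
      have hDc : (D.card : ℝ) = (E j).card * k := by rw [hD, hRk]; push_cast; ring
      refine ⟨D, ?_, ?_⟩
      · rw [← Finset.card_pos]
        have : (0 : ℝ) < D.card := by rw [hDc]; positivity
        exact_mod_cast this
      · show Real.log (traj G D X).card ≤ η * D.card
        rw [hDX, hDc]
        rw [div_lt_iff₀ hEpos] at hj
        rw [div_lt_iff₀ hη] at hk
        nlinarith
  have key' : Tendsto (fun i => ratio G (F i) X) l (𝓝 0) := by
    have := ENNReal.tendsto_ofReal key
    simpa [ratio] using this
  exact key'.limsup_eq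

end Pool.Agent.Results.MP_60863d_al.Vanishing
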